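import Pool.Agent.H34.RC.Bx

/-!
# [H34 AU BX] The number of increasing families of positions, uniformly in the intervals

As H34/RC/Bx with the explicit condition `8 s R <= (be d - al d) H`.
-/

set_option autoImplicit false

namespace Pool.Agent.H34.AU

open Finset Filter Pool.Agent.H34.RC

/-- the lower end of the subinterval number `l` -/
private noncomputable def lo (s : ℕ) (a b H : ℝ) (l : ℕ) : ℝ := a * H + (b - a) * H * (2 * l) / (2 * s)

/-- the upper end of the subinterval number `l` -/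
private noncomputable def hi (s : ℕ) (a b H : ℝ) (l : ℕ) : ℝ := a * H + (b - a) * H * (2 * l + 1) / (2 * s)

private lemma lo_ge {s : ℕ} {a b H : ℝ} (hab : a < b) (hH : 0 ≤ H) (l : ℕ) : a * H ≤ lo s a b H l := by
  unfold lo
  have h1 : 0 ≤ (b - a) * H * (2 * l) / (2 * s) := by
    have : 0 ≤ b - a := by linarith
    positivity
  linarith

private lemma hi_le {s : ℕ} {a b H : ℝ} (hab : a < b) (hH : 0 ≤ H) {l : ℕ} (hl : l < s) : hi s a b H l ≤ b * H := by
  unfold hi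
  have hs : (0 : ℝ) < s := by exact_mod_cast (Nat.pos_of_ne_zero (by omega))
  have h2 : (2 * (l : ℝ) + 1) ≤ 2 * s := by
    have : (l : ℝ) + 1 ≤ s := by exact_mod_cast hl
    linarith
  have h3 : (b - a) * H * (2 * l + 1) / (2 * s) ≤ (b - a) * H := by
    rw [div_le_iff₀ (by positivity)]
    have h4 : 0 ≤ (b - a) * H := mul_nonneg (by linarith) hH
    exact mul_le_mul_of_nonneg_left h2 h4
  linarith

private lemma hi_lt_lo {s : ℕ} (hs : 1 ≤ s) {a b H : ℝ} (hab : a < b) (hH : 0 < H) {l k : ℕ} (hlk : l < k) :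
    hi s a b H l < lo s a b H k := by
  unfold hi lo
  have hs' : (0 : ℝ) < s := by exact_mod_cast hs
  have h2 : (2 * (l : ℝ) + 1) < 2 * k := by
    have : (l : ℝ) + 1 ≤ k := by exact_mod_cast hlk
    linarith
  have h4 : 0 < (b - a) * H := mul_pos (by linarith) hH
  have h3 : (b - a) * H * (2 * l + 1) / (2 * s) < (b - a) * H * (2 * k) / (2 * s) := by
    rw [div_lt_div_iff_of_pos_right (by positivity)]
    exact mul_lt_mul_of_pos_left h2 h4
  linarith

private lemma hi_sub_lo {s : ℕ} (hs : 1 ≤ s) (a b H : ℝ) (l : ℕ) :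
    hi s a b H l - lo s a b H l = (b - a) * H / (2 * s) := by
  unfold hi lo
  have hs' : (s : ℝ) ≠ 0 := by
    have : (0 : ℝ) < s := by exact_mod_cast hs
    exact this.ne'
  field_simp
  ring

/-- numbers in a class in a real interval -/
private lemma count_class {R : ℕ} (hR : 0 < R) (ρ : ℕ) {x y : ℝ} (hx : 0 ≤ x) (hxy : x ≤ y) (K : ℕ) (hK : y ≤ K) :
    (y - x) / R - 2 ≤
      (((range (K + 1)).filter (fun u : ℕ => u ≡ ρ [MOD R] ∧ x ≤ (u : ℝ) ∧ (u : ℝ) ≤ y)).card : ℝ) := by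
  have hR' : (0 : ℝ) < R := by exact_mod_cast hR
  have hsub : (Finset.Ico ⌈x / R⌉₊ ⌊y / R⌋₊).image (fun k => R * k + ρ % R) ⊆
      (range (K + 1)).filter (fun u : ℕ => u ≡ ρ [MOD R] ∧ x ≤ (u : ℝ) ∧ (u : ℝ) ≤ y) := by
    intro u hu
    obtain ⟨k, hk, rfl⟩ := Finset.mem_image.1 hu
    rw [Finset.mem_Ico] at hk
    have hm : ρ % R < R := Nat.mod_lt _ hR
    have h1 : x ≤ ((R * k + ρ % R : ℕ) : ℝ) := by
      have h2 : x / R ≤ (k : ℝ) := le_trans (Nat.le_ceil _) (by exact_mod_cast hk.1)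
      rw [div_le_iff₀ hR'] at h2
      push_cast
      have h3 : (0 : ℝ) ≤ ((ρ % R : ℕ) : ℝ) := Nat.cast_nonneg _
      linarith
    have h2 : ((R * k + ρ % R : ℕ) : ℝ) ≤ y := by
      have h3 : ((k + 1 : ℕ) : ℝ) ≤ (⌊y / R⌋₊ : ℝ) := by exact_mod_cast hk.2
      have h4 : (⌊y / R⌋₊ : ℝ) ≤ y / R := Nat.floor_le (div_nonneg (hx.trans hxy) hR'.le)
      have h5 : ((k + 1 : ℕ) : ℝ) ≤ y / R := h3.trans h4
      rw [le_div_iff₀ hR'] at h5
      have h6 : ((R * k + ρ % R : ℕ) : ℝ) ≤ ((R * (k + 1) : ℕ) : ℝ) := by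
        exact_mod_cast (by nlinarith : R * k + ρ % R ≤ R * (k + 1))
      have h7 : ((R * (k + 1) : ℕ) : ℝ) = ((k + 1 : ℕ) : ℝ) * R := by push_cast; ring
      rw [h7] at h6
      linarith
    rw [Finset.mem_filter, Finset.mem_range]
    refine ⟨?_, ?_, h1, h2⟩
    · have h3 : ((R * k + ρ % R : ℕ) : ℝ) ≤ (K : ℝ) := h2.trans hK
      have h4 : R * k + ρ % R ≤ K := by exact_mod_cast h3
      omega
    · show (R * k + ρ % R) % R = ρ % R
      rw [Nat.mul_add_mod, Nat.mod_mod]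
  have hcard := Finset.card_le_card hsub
  rw [Finset.card_image_of_injective _ (fun k k' hkk => by
    have : R * k = R * k' := Nat.add_right_cancel hkk
    exact Nat.eq_of_mul_eq_mul_left hR this), Nat.card_Ico] at hcard
  have h1 : ((⌊y / R⌋₊ - ⌈x / R⌉₊ : ℕ) : ℝ) ≤
      (((range (K + 1)).filter (fun u : ℕ => u ≡ ρ [MOD R] ∧ x ≤ (u : ℝ) ∧ (u : ℝ) ≤ y)).card : ℝ) := by
    exact_mod_cast hcard
  have h2 : ((⌊y / R⌋₊ : ℕ) : ℝ) - (⌈x / R⌉₊ : ℝ) ≤ ((⌊y / R⌋₊ - ⌈x / R⌉₊ : ℕ) : ℝ) := by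
    rw [sub_le_iff_le_add]
    exact_mod_cast (by omega : ⌊y / R⌋₊ ≤ ⌊y / R⌋₊ - ⌈x / R⌉₊ + ⌈x / R⌉₊)
  have h3 : y / R - 1 < (⌊y / R⌋₊ : ℝ) := Nat.sub_one_lt_floor _
  have h4 : (⌈x / R⌉₊ : ℝ) < x / R + 1 := Nat.ceil_lt_add_one (div_nonneg hx hR'.le)
  have h5 : (y - x) / R = y / R - x / R := sub_div _ _ _
  linarith

theorem bxc_cardU (m s R : ℕ) (hs : 1 ≤ s) (hR : 0 < R) (al be : Fin m → ℝ)
    (h : ∀ d, 0 < al d ∧ al d < be d ∧ be d < 1) (hlt : ∀ d d', d < d' → be d < al d') (H : ℝ) (hH0 : 0 < H)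
    (hbig : ∀ d, 8 * (s : ℝ) * R ≤ (be d - al d) * H) (ρ : Fin m → ℕ) :
      (1 / (4 * (s : ℝ) * R)) ^ (m * s) * ∏ d, ((be d - al d) * H) ^ s ≤
        ((BXC m s R ρ al be H).card : ℝ) := by
  have hs' : (0 : ℝ) < s := by exact_mod_cast hs
  have hR' : (0 : ℝ) < R := by exact_mod_cast hR
  let e := fun i : Fin (m * s) => finProdFinEquiv.symm i
  let A : Fin (m * s) → Finset ℕ := fun i => (range (⌊H⌋₊ + 1)).filter (fun u : ℕ => u ≡ ρ (e i).1 [MOD R] ∧
    lo s (al (e i).1) (be (e i).1) H ((e i).2 : ℕ) ≤ (u : ℝ) ∧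
    (u : ℝ) ≤ hi s (al (e i).1) (be (e i).1) H ((e i).2 : ℕ))
  have hle : ∀ (d : Fin m) (l : ℕ), lo s (al d) (be d) H l ≤ hi s (al d) (be d) H l := by
    intro d l
    have h1 := hi_sub_lo hs (al d) (be d) H l
    have h2 : 0 ≤ (be d - al d) * H / (2 * s) := by
      have : 0 ≤ be d - al d := by linarith [(h d).2.1]
      positivity
    linarith
  have hlo : ∀ (d : Fin m) (l : ℕ), 0 ≤ lo s (al d) (be d) H l := by
    intro d l
    have h1 := lo_ge (s := s) (h d).2.1 hH0.le l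
    have h2 : 0 ≤ al d * H := mul_nonneg (h d).1.le hH0.le
    linarith
  have hA : ∀ i, 1 / (4 * (s : ℝ) * R) * ((be (e i).1 - al (e i).1) * H) ≤ ((A i).card : ℝ) := by
    intro i
    -- counting in the subinterval
    have hf : (((range (⌊H⌋₊ + 1)).filter (fun u : ℕ => u ≡ ρ (e i).1 [MOD R] ∧
        lo s (al (e i).1) (be (e i).1) H ((e i).2 : ℕ) ≤ (u : ℝ) ∧
        (u : ℝ) ≤ hi s (al (e i).1) (be (e i).1) H ((e i).2 : ℕ))).card : ℝ) = ((A i).card : ℝ) := rfl
    have h1 := hi_le (s := s) (h (e i).1).2.1 hH0.le (e i).2.2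
    have h3 : be (e i).1 * H < H := by nlinarith [(h (e i).1).2.2]
    -- numbers up to `⌊H⌋₊ + 1` are counted
    have h4 : (((range (⌊H⌋₊ + 1 + 1)).filter (fun u : ℕ => u ≡ ρ (e i).1 [MOD R] ∧
        lo s (al (e i).1) (be (e i).1) H ((e i).2 : ℕ) ≤ (u : ℝ) ∧
        (u : ℝ) ≤ hi s (al (e i).1) (be (e i).1) H ((e i).2 : ℕ)))) ⊆ A i := by
      intro u hu
      rw [Finset.mem_filter, Finset.mem_range] at hu
      refine Finset.mem_filter.2 ⟨Finset.mem_range.2 ?_, hu.2⟩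
      have h5 : (u : ℝ) ≤ H := by linarith [hu.2.2.2]
      exact Nat.lt_succ_of_le (Nat.le_floor h5)
    have h5 := count_class hR (ρ (e i).1) (hlo (e i).1 ((e i).2 : ℕ)) (hle (e i).1 ((e i).2 : ℕ)) (⌊H⌋₊ + 1)
      (by
        have h6 := Nat.lt_floor_add_one H
        push_cast
        linarith)
    have h6 : (((range (⌊H⌋₊ + 1 + 1)).filter (fun u : ℕ => u ≡ ρ (e i).1 [MOD R] ∧
        lo s (al (e i).1) (be (e i).1) H ((e i).2 : ℕ) ≤ (u : ℝ) ∧
        (u : ℝ) ≤ hi s (al (e i).1) (be (e i).1) H ((e i).2 : ℕ))).card : ℝ) ≤ ((A i).card : ℝ) := by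
      exact_mod_cast Finset.card_le_card h4
    refine le_trans ?_ (h5.trans h6)
    rw [hi_sub_lo hs]
    have h7 := hbig (e i).1
    have h8 : (be (e i).1 - al (e i).1) * H / (2 * s) / R =
        2 * (1 / (4 * (s : ℝ) * R) * ((be (e i).1 - al (e i).1) * H)) := by
      field_simp
      ring
    have h9 : 2 ≤ 1 / (4 * (s : ℝ) * R) * ((be (e i).1 - al (e i).1) * H) := by
      rw [one_div, inv_mul_eq_div, le_div_iff₀ (by positivity)]
      linarith
    rw [h8]
    linarith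
  have hsub : Fintype.piFinset A ⊆ BXC m s R ρ al be H := by
    intro u hu
    rw [Fintype.mem_piFinset] at hu
    have hu' : ∀ i, u i < ⌊H⌋₊ + 1 ∧ (u i ≡ ρ (e i).1 [MOD R] ∧
        lo s (al (e i).1) (be (e i).1) H ((e i).2 : ℕ) ≤ (u i : ℝ) ∧
        (u i : ℝ) ≤ hi s (al (e i).1) (be (e i).1) H ((e i).2 : ℕ)) := by
      intro i
      have h1 := Finset.mem_filter.1 (hu i)
      exact ⟨Finset.mem_range.1 h1.1, h1.2⟩
    rw [mem_BXC]
    refine ⟨fun i => Nat.lt_succ_iff.1 (hu' i).1, ?_, fun i => (hu' i).2.1, ?_⟩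
    · intro i j hij
      have h1 : (u i : ℝ) < (u j : ℝ) := by
        refine lt_of_le_of_lt (hu' i).2.2.2 (lt_of_lt_of_le ?_ (hu' j).2.2.1)
        have hi1 : (i : ℕ) = ((e i).2 : ℕ) + s * ((e i).1 : ℕ) := by
          have h2 : finProdFinEquiv (e i) = i := Equiv.apply_symm_apply _ _
          have h3 := congrArg Fin.val h2
          rw [← h3]
          rfl
        have hj1 : (j : ℕ) = ((e j).2 : ℕ) + s * ((e j).1 : ℕ) := by
          have h2 : finProdFinEquiv (e j) = j := Equiv.apply_symm_apply _ _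
          have h3 := congrArg Fin.val h2
          rw [← h3]
          rfl
        have hij' : (i : ℕ) < j := hij
        rcases lt_trichotomy (e i).1 (e j).1 with hd | hd | hd
        · have h2 := hi_le (s := s) (h (e i).1).2.1 hH0.le (e i).2.2
          have h3 := lo_ge (s := s) (h (e j).1).2.1 hH0.le ((e j).2 : ℕ)
          have h4 := hlt _ _ hd
          have h5 : be (e i).1 * H < al (e j).1 * H := mul_lt_mul_of_pos_right h4 hH0
          linarith
        · rw [hd]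
          refine hi_lt_lo hs (h (e j).1).2.1 hH0 ?_
          rw [hi1, hj1, hd] at hij'
          omega
        · exfalso
          have h2 : ((e j).1 : ℕ) + 1 ≤ ((e i).1 : ℕ) := hd
          have h3 : s * (((e j).1 : ℕ) + 1) ≤ s * ((e i).1 : ℕ) := Nat.mul_le_mul_left s h2
          have h4 : ((e j).2 : ℕ) < s := (e j).2.2
          rw [hi1, hj1] at hij'
          rw [Nat.mul_add] at h3
          omega
      exact_mod_cast h1
    · intro d l
      have h1 := (hu' (finProdFinEquiv (d, l))).2.2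
      have h2 : e (finProdFinEquiv (d, l)) = (d, l) := Equiv.symm_apply_apply _ _
      rw [h2] at h1
      have h3 := hi_le (s := s) (h d).2.1 hH0.le l.2
      have h4 := lo_ge (s := s) (h d).2.1 hH0.le (l : ℕ)
      exact ⟨h4.trans h1.1, h1.2.trans h3⟩
  have hcard := Finset.card_le_card hsub
  rw [Fintype.card_piFinset] at hcard
  have h1 : (∏ i, ((A i).card : ℝ)) ≤ ((BXC m s R ρ al be H).card : ℝ) := by exact_mod_cast hcard
  refine le_trans ?_ h1
  have h2 : ∏ i : Fin (m * s), (1 / (4 * (s : ℝ) * R) * ((be (e i).1 - al (e i).1) * H)) ≤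
      ∏ i, ((A i).card : ℝ) := by
    refine Finset.prod_le_prod (fun i _ => ?_) (fun i _ => hA i)
    have : 0 ≤ be (e i).1 - al (e i).1 := by linarith [(h (e i).1).2.1]
    positivity
  refine le_trans (le_of_eq ?_) h2
  rw [Finset.prod_mul_distrib, Finset.prod_const, Finset.card_univ, Fintype.card_fin]
  refine congrArg _ ?_
  have h3 : ∏ i : Fin (m * s), ((be (e i).1 - al (e i).1) * H) =
      ∏ p : Fin m × Fin s, ((be p.1 - al p.1) * H) :=
    Equiv.prod_comp finProdFinEquiv.symm (fun p : Fin m × Fin s => (be p.1 - al p.1) * H)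
  rw [h3, Fintype.prod_prod_type]
  refine Finset.prod_congr rfl fun d _ => ?_
  show ((be d - al d) * H) ^ s = ∏ _y : Fin s, ((be d - al d) * H)
  rw [Finset.prod_const, Finset.card_univ, Fintype.card_fin]

end Pool.Agent.H34.AU
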